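import Pool.Agent.Hhelper38.PocH

set_option autoImplicit false

namespace Pool.Agent.Results.MP_4dfdc8_co.MaxDegFour

universe u

/-- `HasPathOddCover G k`: there are `k` paths `P 0, …, P (k-1)` of the complete graph on the
vertex set of `G` (`P i` runs from `a i` to `b i`) such that an unordered pair `e` of vertices is
an edge of `G` if and only if `e` is an edge of an odd number of the paths `P i`.  In other words
the symmetric difference of the edge sets of the `k` paths is the edge set of `G`. -/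
def HasPathOddCover {V : Type u} (G : SimpleGraph V) (k : ℕ) : Prop :=
  ∃ (a b : Fin k → V) (P : (i : Fin k) → (⊤ : SimpleGraph V).Path (a i) (b i)),
    ∀ e : Sym2 V, e ∈ G.edgeSet ↔
      Odd (Nat.card {i : Fin k // e ∈ (P i : (⊤ : SimpleGraph V).Walk (a i) (b i)).edges})

/-- The path odd-cover number `p₂(G)`: the least `k` such that `G` has a path odd-cover with `k`
paths (`⊤` if there is none). -/
noncomputable def pathOddCoverNumber {V : Type u} (G : SimpleGraph V) : ℕ∞ :=
  ⨅ (k : ℕ) (_ : HasPathOddCover G k), (k : ℕ∞)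

theorem list_walk {V : Type u} : ∀ (l : List V) (a : V), (a :: l).Nodup →
    ∃ (b : V) (w : (⊤ : SimpleGraph V).Walk a b), w.support = a :: l ∧ w.edges = POC.le (a :: l) := by
  intro l
  induction l with
  | nil => intro a _; exact ⟨a, SimpleGraph.Walk.nil, rfl, rfl⟩
  | cons c l ih =>
    intro a h
    obtain ⟨b, w, h1, h2⟩ := ih c (List.nodup_cons.1 h).2
    have hac : (⊤ : SimpleGraph V).Adj a c := by
      rw [SimpleGraph.top_adj]
      rintro rfl
      simp at h
    refine ⟨b, SimpleGraph.Walk.cons hac w, ?_, ?_⟩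
    · rw [SimpleGraph.Walk.support_cons, h1]
    · rw [SimpleGraph.Walk.edges_cons, h2]; rfl

theorem list_path {V : Type u} (l : List V) (hl : l ≠ []) (hn : l.Nodup) :
    ∃ (a b : V) (p : (⊤ : SimpleGraph V).Path a b),
      (p : (⊤ : SimpleGraph V).Walk a b).edges = POC.le l := by
  obtain ⟨a, t, rfl⟩ := List.exists_cons_of_ne_nil hl
  obtain ⟨b, w, h1, h2⟩ := list_walk t a hn
  refine ⟨a, b, ⟨w, ?_⟩, h2⟩
  rw [SimpleGraph.Walk.isPath_def, h1]
  exact hn

theorem exists_cover {V : Type u} [Fintype V] (G : SimpleGraph V) [DecidableRel G.Adj]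
    (hE : ∀ v, Even (G.degree v)) (hΔ : G.maxDegree = 4) : HasPathOddCover G 3 := by
  classical
  obtain ⟨σ, τ, hστ⟩ := POC.two_factor G hE (fun v => hΔ ▸ G.degree_le_maxDegree v)
  have hnd := G.edgeFinset.nodup
  rw [hστ, Multiset.nodup_add] at hnd
  obtain ⟨n1, n2, n3⟩ := hnd
  have i1 : ∀ v ∈ σ.support, ∀ w ∈ σ.support, s(v, σ v) = s(w, σ w) → v = w :=
    fun v hv w hw h => Multiset.inj_on_of_nodup_map n1 v hv w hw h
  have i2 : ∀ v ∈ τ.support, ∀ w ∈ τ.support, s(v, τ v) = s(w, τ w) → v = w :=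
    fun v hv w hw h => Multiset.inj_on_of_nodup_map n2 v hv w hw h
  have hσ3 : ∀ v ∈ σ.support, σ (σ v) ≠ v := by
    intro v hv h
    have h1 : σ v ∈ σ.support := by simpa using hv
    have h2 := i1 v hv _ h1 (by rw [h, Sym2.eq_swap])
    exact (Equiv.Perm.mem_support.1 hv) h2.symm
  have hτ3 : ∀ v ∈ τ.support, τ (τ v) ≠ v := by
    intro v hv h
    have h1 : τ v ∈ τ.support := by simpa using hv
    have h2 := i2 v hv _ h1 (by rw [h, Sym2.eq_swap])
    exact (Equiv.Perm.mem_support.1 hv) h2.symm
  have hdisj : ∀ v ∈ σ.support, ∀ w ∈ τ.support, s(v, σ v) ≠ s(w, τ w) := by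
    intro v hv w hw h
    rw [Multiset.disjoint_left] at n3
    exact n3 (Multiset.mem_map.2 ⟨v, hv, rfl⟩) (Multiset.mem_map.2 ⟨w, hw, h.symm⟩)
  have hne : Nonempty V := by
    by_contra h
    rw [not_nonempty_iff] at h
    have : G.maxDegree = 0 := by
      apply Nat.le_zero.1
      exact G.maxDegree_le_of_forall_degree_le 0 (fun v => (h.false v).elim)
    omega
  obtain ⟨x, hx⟩ := G.exists_maximal_degree_vertex
  have hx4 : G.degree x = 4 := by rw [← hx, hΔ]
  have hnb : ∀ w, G.Adj x w → ((w = σ x ∨ w = σ⁻¹ x) ∨ (w = τ x ∨ w = τ⁻¹ x)) := by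
    intro w hw
    have h1 : s(x, w) ∈ G.edgeFinset.val := by
      rw [Finset.mem_val, SimpleGraph.mem_edgeFinset]
      exact hw
    rw [hστ, Multiset.mem_add, Multiset.mem_map, Multiset.mem_map] at h1
    rcases h1 with ⟨u, hu, h⟩ | ⟨u, hu, h⟩
    · left
      rw [Sym2.eq_iff] at h
      rcases h with ⟨rfl, h⟩ | ⟨rfl, h⟩
      · exact Or.inl h.symm
      · right; rw [← h]; simp
    · right
      rw [Sym2.eq_iff] at h
      rcases h with ⟨rfl, h⟩ | ⟨rfl, h⟩
      · exact Or.inl h.symm
      · right; rw [← h]; simp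
  have hxσ : x ∈ σ.support := by
    by_contra h
    have h1 : σ x = x := by simpa using h
    have h2 : σ⁻¹ x = x := by rw [Equiv.Perm.inv_eq_iff_eq]; exact h1.symm
    have h3 : G.neighborFinset x ⊆ {τ x, τ⁻¹ x} := by
      intro w hw
      rw [SimpleGraph.mem_neighborFinset] at hw
      rcases hnb w hw with (h4 | h4) | h4
      · exact absurd (h4.trans h1).symm hw.ne
      · exact absurd (h4.trans h2).symm hw.ne
      · simpa using h4
    have h4 := Finset.card_le_card h3
    rw [SimpleGraph.card_neighborFinset_eq_degree, hx4] at h4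
    have h5 : ({τ x, τ⁻¹ x} : Finset V).card ≤ 2 := Finset.card_le_two
    omega
  have hxτ : x ∈ τ.support := by
    by_contra h
    have h1 : τ x = x := by simpa using h
    have h2 : τ⁻¹ x = x := by rw [Equiv.Perm.inv_eq_iff_eq]; exact h1.symm
    have h3 : G.neighborFinset x ⊆ {σ x, σ⁻¹ x} := by
      intro w hw
      rw [SimpleGraph.mem_neighborFinset] at hw
      rcases hnb w hw with h4 | (h4 | h4)
      · simpa using h4
      · exact absurd (h4.trans h1).symm hw.ne
      · exact absurd (h4.trans h2).symm hw.ne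
    have h4 := Finset.card_le_card h3
    rw [SimpleGraph.card_neighborFinset_eq_degree, hx4] at h4
    have h5 : ({σ x, σ⁻¹ x} : Finset V).card ≤ 2 := Finset.card_le_two
    omega
  obtain ⟨l₁, l₂, l₃, X, q1, q2, q3, q4, q5, q6, q7⟩ :=
    POC.core σ τ hσ3 hτ3 hdisj x hxσ hxτ
  rw [← hστ] at q7
  let L : Fin 3 → List V := ![l₁, l₂, l₃]
  have hL : ∀ i, ∃ (a b : V) (p : (⊤ : SimpleGraph V).Path a b),
      (p : (⊤ : SimpleGraph V).Walk a b).edges = POC.le (L i) := by
    intro i
    fin_cases i
    · exact list_path l₁ q4 q1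
    · exact list_path l₂ q5 q2
    · exact list_path l₃ q6 q3
  choose a b P hP using hL
  refine ⟨a, b, P, ?_⟩
  intro e
  have hcnt : ∀ i, (POC.le (L i)).count e = if e ∈ POC.le (L i) then 1 else 0 := by
    intro i
    apply List.Nodup.count
    rw [← hP i]
    exact (P i).2.isTrail.edges_nodup
  have h1 : Nat.card {i : Fin 3 // e ∈ (P i : (⊤ : SimpleGraph V).Walk (a i) (b i)).edges} =
      (POC.le l₁).count e + (POC.le l₂).count e + (POC.le l₃).count e := by
    rw [Nat.card_eq_fintype_card, Fintype.card_subtype, Finset.card_filter, Fin.sum_univ_three]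
    simp only [hP]
    rw [← hcnt 0, ← hcnt 1, ← hcnt 2]
    rfl
  have h2 := congrArg (Multiset.count e) q7
  simp only [Multiset.count_add, POC.me, Multiset.coe_count] at h2
  rw [h1, h2]
  have h3 : Multiset.count e G.edgeFinset.val = if e ∈ G.edgeSet then 1 else 0 := by
    rw [Multiset.count_eq_of_nodup G.edgeFinset.nodup]
    simp
  rw [h3]
  split_ifs with h4
  · simp only [h4, true_iff]
    exact ⟨Multiset.count e X, by ring⟩
  · simp only [h4, false_iff, Nat.not_odd_iff_even]
    exact ⟨Multiset.count e X, by ring⟩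

/-- Every finite simple graph all of whose degrees are even and whose maximum degree is `4` has
path odd-cover number at most `3`. -/
theorem result {V : Type u} [Fintype V] (G : SimpleGraph V) [DecidableRel G.Adj]
    (hE : ∀ v, Even (G.degree v)) (hΔ : G.maxDegree = 4) : pathOddCoverNumber G ≤ 3 := by
  have h := exists_cover G hE hΔ
  unfold pathOddCoverNumber
  exact iInf₂_le (α := ℕ∞) 3 h

end Pool.Agent.Results.MP_4dfdc8_co.MaxDegFour
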